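import Mathlib
import Pool.Agent.Helper332.NRS.Forcing
import Pool.Agent.Helper332.NRS.Main

/-!
# Compact spaces whose small closures are Eberlein compact

It is consistent with ZFC that there is a compact space which is not Eberlein compact (not even
Corson compact), although all closures of sets of size at most continuum are Eberlein compact.
-/

set_option autoImplicit false

namespace Pool.Agent.Results.MP_ba6bfd_gt.NotProvable

open Cardinal Set
open Pool.Agent.Helper332.NRS (NRSHolds NonreflectingStationary)

/-- (1) Some forcing notion forces that there is a nonreflecting stationary set of points of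
cofinality `ω` in the successor of the continuum. (2) If there is such a set, then there is a
compact Hausdorff space `X` which is not Eberlein compact, although the closure of every subset of
size at most continuum is Eberlein compact (embeds as a bounded pointwise compact subset of some
`c₀(Γ)`). -/
theorem result :
    (∃ (P : Type) (_ : Preorder P), Nonempty P ∧ ∀ p : P, p ∈ NRSHolds P) ∧
    (NonreflectingStationary →
      ∃ (X : Type) (_ : TopologicalSpace X), CompactSpace X ∧ T2Space X ∧
        (∀ A : Set X, #A ≤ 𝔠 →
          ∃ (Γ : Type) (f : ↥(closure A) → (Γ → ℝ)), Continuous f ∧ Function.Injective f ∧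
            (∀ x, Filter.Tendsto (f x) Filter.cofinite (nhds 0)) ∧
            ∃ M : ℝ, ∀ x γ, |f x γ| ≤ M) ∧
        ¬ ∃ (Γ : Type) (f : X → (Γ → ℝ)), Continuous f ∧ Function.Injective f ∧
          (∀ x, Filter.Tendsto (f x) Filter.cofinite (nhds 0)) ∧
          ∃ M : ℝ, ∀ x γ, |f x γ| ≤ M) := by
  refine ⟨Pool.Agent.Helper332.NRS.exists_forcing, fun h => ?_⟩
  obtain ⟨X, hX, h1, h2, h3, h4⟩ := Pool.Agent.Helper332.NRS.space_of_nrs h
  refine ⟨X, hX, h1, h2, fun A hA => ?_, ?_⟩
  · obtain ⟨Γ, f, hf, hinj, hs, hb⟩ := h3 A hA
    refine ⟨Γ, f, hf, hinj, fun x => ?_, 1, hb⟩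
    refine tendsto_nhds_of_eventually_eq ?_
    rw [Filter.eventually_cofinite]
    exact hs x
  · rintro ⟨Γ, f, hf, hinj, hc, _⟩
    refine h4 Γ f hf hinj fun x => ?_
    have h5 : Function.support (f x) = ⋃ n : ℕ, {γ | ¬ |f x γ| < 1 / ((n : ℝ) + 1)} := by
      ext γ
      simp only [Function.mem_support, Set.mem_iUnion, Set.mem_ofPred_eq, not_lt]
      constructor
      · intro h
        obtain ⟨n, hn⟩ := exists_nat_one_div_lt (abs_pos.2 h)
        exact ⟨n, hn.le⟩
      · rintro ⟨n, hn⟩ h
        rw [h, abs_zero] at hn
        have : (0 : ℝ) < 1 / ((n : ℝ) + 1) := by positivity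
        linarith
    rw [h5]
    refine Set.countable_iUnion fun n => Set.Finite.countable ?_
    have h6 : (0 : ℝ) < 1 / ((n : ℝ) + 1) := by positivity
    have h7 := Metric.tendsto_nhds.1 (hc x) _ h6
    rw [Filter.eventually_cofinite] at h7
    simpa [Real.dist_eq] using h7

end Pool.Agent.Results.MP_ba6bfd_gt.NotProvable
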